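import Pool.Agent.H339R3.CNDefs
import Pool.Agent.H339R3.CN4

/-!
A set of positive outer Lebesgue measure all of whose translates are null for the Cantor measure.
-/

set_option autoImplicit false

namespace Pool.Agent.Results.MP_49e1f6_an.NotConsistent

open MeasureTheory Pool.Agent.H339R3.CN

/-- The image measure is a genuine probability measure, since `cantorMap` is measurable. -/
theorem isProbabilityMeasure_cantorMeasure : IsProbabilityMeasure cantorMeasure :=
  Measure.isProbabilityMeasure_map measurable_cantorMap.aemeasurable

/-- There is a set `X` of real numbers of positive outer Lebesgue measure such that every translate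
of `X` is null for the Cantor measure. -/
theorem result : ∃ X : Set ℝ, 0 < volume X ∧ ∀ t : ℝ, cantorMeasure ((fun x => x + t) '' X) = 0 :=
  Pool.Agent.H339R3.CN.main

end Pool.Agent.Results.MP_49e1f6_an.NotConsistent
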